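import Mathlib

set_option autoImplicit false

open MeasureTheory Set

namespace Pool.Agent.K1H66.ZO

theorem circ_aux (r : ℝ) (E : Set ℝ) (hr : 0 < r) (hE : MeasurableSet E)
    (h : ∀ x : ℝ, x ≠ 0 → (x ^ 2 - r ^ 2) / (2 * x) ∈ E → x ∈ E) :
    volume E = 0 ∨ volume Eᶜ = 0 := by
  have : Fact (0 < Real.pi) := ⟨Real.pi_pos⟩
  set c : ℝ → ℝ := fun t => r * (Real.cos t / Real.sin t) with hc
  have hp : Function.Periodic c Real.pi := by
    intro t
    simp only [hc, Real.cos_add_pi, Real.sin_add_pi, neg_div_neg_eq]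
  have hcm : Measurable c := by fun_prop
  set ch : AddCircle Real.pi → ℝ := hp.lift with hch
  have hlift : ∀ t : ℝ, ch (t : AddCircle Real.pi) = c t := fun t => hp.lift_coe t
  have hchm : Measurable ch := by
    have h1 : ch = fun y => c ((AddCircle.measurableEquivIoc Real.pi 0 y : ℝ)) := by
      funext y
      have h2 : (((AddCircle.measurableEquivIoc Real.pi 0 y : Ioc (0 : ℝ) (0 + Real.pi)) : ℝ) :
          AddCircle Real.pi) = y := by
        exact (AddCircle.equivIoc Real.pi 0).symm_apply_apply y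
      conv_lhs => rw [← h2]
      exact hlift _
    rw [h1]
    exact hcm.comp (measurable_subtype_coe.comp (AddCircle.measurableEquivIoc Real.pi 0).measurable)
  set E' : Set (AddCircle Real.pi) := ch ⁻¹' E with hE'
  have hE'm : MeasurableSet E' := hchm hE
  have hmp := AddCircle.measurePreserving_mk Real.pi (0 : ℝ)
  have hkey : (fun y : AddCircle Real.pi => 2 • y) ⁻¹' E' ≤ᵐ[volume] E' := by
    have hfin : volume ({((Real.pi / 2 : ℝ) : AddCircle Real.pi), ((Real.pi : ℝ) : AddCircle Real.pi)} : Set (AddCircle Real.pi)) = 0 := by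
      generalize hS : ({((Real.pi / 2 : ℝ) : AddCircle Real.pi), ((Real.pi : ℝ) : AddCircle Real.pi)} : Set (AddCircle Real.pi)) = S
      have hSf : S.Finite := by rw [← hS]; exact Set.toFinite _
      rw [← hmp.measure_preimage hSf.measurableSet.nullMeasurableSet, Measure.restrict_apply' measurableSet_Ioc]
      refine Set.Finite.measure_zero ((hSf.image fun y => (AddCircle.equivIoc Real.pi 0 y : ℝ)).subset ?_) _
      rintro t ⟨ht, ht'⟩
      refine ⟨_, ht, ?_⟩
      have h1 := (AddCircle.equivIoc Real.pi 0).apply_symm_apply ⟨t, ht'⟩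
      exact congrArg Subtype.val h1
    have hae : ∀ᵐ y : AddCircle Real.pi, y ∉ ({((Real.pi / 2 : ℝ) : AddCircle Real.pi), ((Real.pi : ℝ) : AddCircle Real.pi)} : Set (AddCircle Real.pi)) :=
      measure_eq_zero_iff_ae_notMem.1 hfin
    filter_upwards [hae] with y hy hy2
    obtain ⟨t, ht, rfl⟩ : ∃ t ∈ Ioc (0 : ℝ) (0 + Real.pi), (t : AddCircle Real.pi) = y :=
      ⟨_, (AddCircle.equivIoc Real.pi 0 y).2, (AddCircle.equivIoc Real.pi 0).symm_apply_apply y⟩
    rw [zero_add] at ht
    have ht1 : t ≠ Real.pi := by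
      rintro rfl; exact hy (by simp)
    have ht2 : t ≠ Real.pi / 2 := by
      rintro rfl; exact hy (by simp)
    have hs : 0 < Real.sin t := Real.sin_pos_of_pos_of_lt_pi ht.1 (lt_of_le_of_ne ht.2 ht1)
    have hcos : Real.cos t ≠ 0 := by
      intro h0
      apply ht2
      have := Real.injOn_cos ⟨ht.1.le, ht.2⟩ ⟨by positivity, by linarith [Real.pi_pos]⟩
        (h0.trans Real.cos_pi_div_two.symm)
      exact this
    have hx : c t ≠ 0 := by
      simp only [hc]
      exact mul_ne_zero hr.ne' (div_ne_zero hcos hs.ne')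
    have h2t : c (2 * t) = (c t ^ 2 - r ^ 2) / (2 * c t) := by
      simp only [hc, Real.cos_two_mul', Real.sin_two_mul]
      field_simp
    have h3 : (fun y : AddCircle Real.pi => 2 • y) (t : AddCircle Real.pi) ∈ E' := hy2
    have h4 : ((2 * t : ℝ) : AddCircle Real.pi) = 2 • (t : AddCircle Real.pi) := by
      rw [two_mul, two_nsmul, AddCircle.coe_add]
    have h5 : c (2 * t) ∈ E := by
      rw [← hlift, h4]; exact h3
    rw [h2t] at h5
    have h6 := h _ hx h5
    show ch (t : AddCircle Real.pi) ∈ E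
    rw [hlift]; exact h6
  have herg := (AddCircle.ergodic_nsmul (T := Real.pi) (n := 2) one_lt_two)
  have hdi := herg.ae_empty_or_univ_of_preimage_ae_le hE'm.nullMeasurableSet hkey
  -- transfer
  have htr : ∀ F : Set ℝ, MeasurableSet F → volume (ch ⁻¹' F) = 0 → volume F = 0 := by
    intro F hF h0
    have h1 : (volume.restrict (Ioc (0 : ℝ) (0 + Real.pi)))
        ((fun t : ℝ => (t : AddCircle Real.pi)) ⁻¹' (ch ⁻¹' F)) = 0 := by
      rw [hmp.measure_preimage (hchm hF).nullMeasurableSet]; exact h0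
    have h2 : volume (c ⁻¹' F ∩ Ioo 0 Real.pi) = 0 := by
      rw [Measure.restrict_apply' measurableSet_Ioc] at h1
      refine measure_mono_null ?_ h1
      rintro t ⟨ht, ht'⟩
      refine ⟨?_, ht'.1, by rw [zero_add]; exact ht'.2.le⟩
      show ch (t : AddCircle Real.pi) ∈ F
      rw [hlift]; exact ht
    have h3 : F ⊆ c '' (c ⁻¹' F ∩ Ioo 0 Real.pi) := by
      intro x hx
      have hat := Real.arctan_lt_pi_div_two (x / r)
      have hat' := Real.neg_pi_div_two_lt_arctan (x / r)
      have hcx : c (Real.pi / 2 - Real.arctan (x / r)) = x := by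
        simp only [hc, Real.cos_pi_div_two_sub, Real.sin_pi_div_two_sub]
        rw [← Real.tan_eq_sin_div_cos, Real.tan_arctan]
        field_simp
      refine ⟨Real.pi / 2 - Real.arctan (x / r), ⟨?_, by linarith, by linarith⟩, hcx⟩
      show c _ ∈ F
      rw [hcx]; exact hx
    refine measure_mono_null h3 ?_
    apply addHaar_image_eq_zero_of_differentiableOn_of_addHaar_eq_zero volume _ h2
    intro t ht
    apply DifferentiableAt.differentiableWithinAt
    have hs : Real.sin t ≠ 0 := (Real.sin_pos_of_pos_of_lt_pi ht.2.1 ht.2.2).ne'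
    simp only [hc]
    exact (differentiableAt_const r).mul (Real.differentiableAt_cos.div Real.differentiableAt_sin hs)
  rcases hdi with h0 | h1
  · left
    exact htr E hE (ae_eq_empty.1 h0)
  · right
    apply htr Eᶜ hE.compl
    have := ae_eq_univ.1 h1
    exact this

end Pool.Agent.K1H66.ZO
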