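import Pool.Agent.K1H92.ZO.Defs
import Pool.Agent.K1H66.ZO.Circ0

set_option autoImplicit false

namespace Pool.Agent.K1H66.ZO

open Pool.Agent.K1H92.ZO

/-- CIRC -/
theorem circ : StmCirc := fun r E hr hE h => circ_aux r E hr hE h

end Pool.Agent.K1H66.ZO
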